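import Pool.Agent.H64.STM.Targets

/-!
# Row ALT: diagrams are orthogonal to products of diagrams and an alternating tensor
-/

set_option autoImplicit false
set_option linter.unusedSectionVars false

open Matrix Pool.Agent.H64.CC Pool.Agent.H2.NL Pool.Agent.H2.KM Pool.Agent.H64.EV
open Pool.Agent.H64.FTM Pool.Agent.H64.STM

namespace Pool.Agent.H21.STM

section words

variable {K : Type} [Field K] {I : Type} [Fintype I] [DecidableEq I] (F : OForm K I)

/-- the number of the odd letters -/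
def nodd {m : ℕ} (w : Fin m → I) : ℕ := ∑ j, if F.o (w j) = true then 1 else 0

/-- the sign of half the number of the odd letters -/
def cs {m : ℕ} (w : Fin m → I) : K := (-1) ^ (nodd F w / 2)

/-- two letters before a word -/
def c2 {m : ℕ} (a b : I) (v : Fin m → I) : Fin (m + 2) → I :=
  Fin.cons (α := fun _ => I) a (Fin.cons (α := fun _ => I) b v)

omit [Fintype I] [DecidableEq I] in
theorem nodd_c2 {m : ℕ} (a b : I) (v : Fin m → I) : nodd F (c2 a b v) =
    (if F.o a = true then 1 else 0) + ((if F.o b = true then 1 else 0) + nodd F v) := by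
  unfold nodd c2
  rw [Fin.sum_univ_succ, Fin.sum_univ_succ]
  simp only [Fin.cons_zero, Fin.cons_succ]

omit [Fintype I] [DecidableEq I] in
theorem cs_c2 {m : ℕ} (a : I) (v : Fin m → I) :
    cs F (c2 a (F.st a) v) = sg K (F.o a) * cs F v := by
  unfold cs sg
  rw [nodd_c2, F.o_st]
  by_cases h : F.o a = true
  · rw [if_pos h, if_pos h]
    have e : (1 + (1 + nodd F v)) / 2 = nodd F v / 2 + 1 := by omega
    rw [e, pow_succ]
    ring
  · rw [if_neg h, if_neg h, zero_add, zero_add, one_mul]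

omit [Fintype I] [DecidableEq I] in
theorem cs_perm {m : ℕ} (σ : Equiv.Perm (Fin m)) (w : Fin m → I) :
    cs F (fun i => w (σ i)) = cs F w := by
  unfold cs nodd
  rw [Equiv.sum_comp σ fun j => if F.o (w j) = true then 1 else 0]

omit [Fintype I] [DecidableEq I] in
theorem ac_cs {m : ℕ} (σ : Equiv.Perm (Fin m)) (f : (Fin m → I) → K) :
    ac F.o σ (fun w => cs F w * f w) = fun w => cs F w * ac F.o σ f w := by
  funext w
  show kap F.o σ w * (cs F (fun i => w (σ i)) * f fun i => w (σ i)) =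
    cs F w * (kap F.o σ w * f fun i => w (σ i))
  rw [cs_perm]
  ring

omit [DecidableEq I] in
theorem omk_cons (Ω : Matrix I I K) (k : ℕ) (a b : I) (l : List I) :
    omk Ω (k + 1) (a :: b :: l) = Ω a b * omk Ω k l := rfl

omit [DecidableEq I] in
theorem omk_append (Ω : Matrix I I K) : ∀ (k : ℕ) (u : List I), u.length = 2 * k → ∀ x y : I,
    omk Ω (k + 1) (u ++ [x, y]) = omk Ω k u * Ω x y
  | 0, [], _, x, y => by
    show Ω x y * 1 = 1 * Ω x y
    ring
  | k + 1, a :: b :: u, h, x, y => by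
    have h' : u.length = 2 * k := by
      simp only [List.length_cons] at h
      omega
    show omk Ω (k + 1 + 1) (a :: b :: (u ++ [x, y])) = _
    rw [omk_cons, omk_append Ω k u h', omk_cons]
    ring

omit [Fintype I] [DecidableEq I] in
theorem ofFn_c2 {m : ℕ} (a b : I) (v : Fin m → I) :
    List.ofFn (c2 a b v) = a :: b :: List.ofFn v := by
  unfold c2
  rw [List.ofFn_succ, List.ofFn_succ]
  simp only [Fin.cons_zero, Fin.cons_succ]

theorem dg_c2 (k : ℕ) (a b : I) (v : Fin (2 * k) → I) :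
    dg F (k + 1) (c2 a b v) = F.ω a b * dg F k v := by
  show omk F.ω (k + 1) (List.ofFn (c2 a b v)) = _
  rw [ofFn_c2, omk_cons]
  rfl

theorem om_swap (a b : I) (k : ℕ) (v : Fin k → I) :
    cs F v * F.ω b a = cs F (c2 a b v) * F.ω a b := by
  by_cases h : b = F.st a
  · have h' : a = F.st b := by rw [h, F.st_st]
    unfold OForm.ω
    rw [Matrix.of_apply, Matrix.of_apply, if_pos h', if_pos h]
    have e1 : cs F (c2 a b v) = sg K (F.o a) * cs F v := by rw [h, cs_c2]
    have e2 : F.c a = sg K (F.o a) * F.c b := by rw [h, F.sg_c_st]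
    have e3 : sg K (F.o a) * sg K (F.o a) = 1 := sg_mul_self K _
    have e4 : sg K (F.o a) ≠ 0 := by
      intro h0
      rw [h0, zero_mul] at e3
      exact zero_ne_one e3
    rw [e1, e2]
    have e5 := F.c_ne b
    field_simp
    rw [pow_two, e3, mul_one]
  · have h' : a ≠ F.st b := fun h0 => h (by rw [h0, F.st_st])
    unfold OForm.ω
    rw [Matrix.of_apply, Matrix.of_apply, if_neg h', if_neg h, mul_zero, mul_zero]

theorem exists_c2 {m : ℕ} (w : Fin (m + 2) → I) : ∃ (a b : I) (v : Fin m → I), w = c2 a b v := by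
  refine ⟨w 0, w 1, fun i => w i.succ.succ, ?_⟩
  funext i
  refine Fin.cases rfl (fun i => ?_) i
  refine Fin.cases rfl (fun i => rfl) i

theorem rvf_dg (hPRF : T_PRF) : ∀ (k : ℕ) (w : Fin (2 * k) → I),
    rvf (dg F k) w = cs F w * dg F k w
  | 0, w => by
    have e : (fun i : Fin (2 * 0) => w i.rev) = w := by
      funext i
      exact absurd i.2 (by omega)
    show dg F 0 (fun i => w i.rev) = _
    rw [e]
    have e1 : cs F w = 1 := by
      unfold cs nodd
      have : ∑ j : Fin (2 * 0), (if F.o (w j) = true then 1 else 0) = 0 := rfl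
      rw [this]
      simp
    rw [e1, one_mul]
  | k + 1, w => by
    obtain ⟨a, b, v, rfl⟩ := exists_c2 (m := 2 * k) w
    have h4 := (hPRF K I F (2 * (k + 1))).2.2.2 (omk F.ω (k + 1))
    have h5 := (hPRF K I F (2 * k)).2.2.2 (omk F.ω k)
    have e1 : rvf (dg F (k + 1)) (c2 a b v) = omk F.ω (k + 1) (List.ofFn (c2 a b v)).reverse := by
      show rvf (ev (2 * (k + 1)) (omk F.ω (k + 1))) (c2 a b v) = _
      rw [← h4]
      rfl
    have e2 : rvf (dg F k) v = omk F.ω k (List.ofFn v).reverse := by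
      show rvf (ev (2 * k) (omk F.ω k)) v = _
      rw [← h5]
      rfl
    have e3 : (List.ofFn (c2 a b v)).reverse = (List.ofFn v).reverse ++ [b, a] := by
      rw [ofFn_c2, List.reverse_cons, List.reverse_cons, List.append_assoc]
      rfl
    rw [e1, e3, omk_append F.ω k _ (by simp), ← e2, rvf_dg hPRF k v, dg_c2]
    calc cs F v * dg F k v * F.ω b a = (cs F v * F.ω b a) * dg F k v := by ring
      _ = _ := by rw [om_swap]; ring

theorem pr_c2 {m : ℕ} (h G : (Fin (m + 2) → I) → K) : pr F h G =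
    ∑ v : Fin m → I, (∏ i, F.c (v i)) * ∑ a, ∑ b, F.c a * F.c b * h (c2 a b v) *
      G (c2 (F.st a) (F.st b) fun i => F.st (v i)) := by
  unfold pr
  rw [← (Fin.consEquiv (fun _ : Fin (m + 2) => I)).sum_comp, Fintype.sum_prod_type]
  have h1 : ∀ a : I, ∑ y : Fin (m + 1) → I,
      (∏ i, F.c ((Fin.consEquiv (fun _ : Fin (m + 2) => I)) (a, y) i)) *
        h ((Fin.consEquiv (fun _ : Fin (m + 2) => I)) (a, y)) *
        G (fun i => F.st ((Fin.consEquiv (fun _ : Fin (m + 2) => I)) (a, y) i)) =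
      ∑ b : I, ∑ v : Fin m → I, (∏ i, F.c (v i)) * (F.c a * F.c b * h (c2 a b v) *
        G (c2 (F.st a) (F.st b) fun i => F.st (v i))) := by
    intro a
    rw [← (Fin.consEquiv (fun _ : Fin (m + 1) => I)).sum_comp, Fintype.sum_prod_type]
    refine Finset.sum_congr rfl fun b _ => Finset.sum_congr rfl fun v _ => ?_
    have e1 : (Fin.consEquiv (fun _ : Fin (m + 2) => I))
        (a, (Fin.consEquiv (fun _ : Fin (m + 1) => I)) (b, v)) = c2 a b v := rfl
    rw [e1]
    have e2 : (fun i => F.st (c2 a b v i)) = c2 (F.st a) (F.st b) fun i => F.st (v i) := by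
      funext i
      refine Fin.cases rfl (fun i => ?_) i
      refine Fin.cases rfl (fun i => rfl) i
    have e3 : ∏ i, F.c (c2 a b v i) = F.c a * (F.c b * ∏ i, F.c (v i)) := by
      unfold c2
      rw [Fin.prod_univ_succ, Fin.prod_univ_succ]
      simp only [Fin.cons_zero, Fin.cons_succ]
    rw [e2, e3]
    ring
  rw [Finset.sum_congr rfl fun a _ => h1 a]
  rw [Finset.sum_congr rfl fun a _ => Finset.sum_comm, Finset.sum_comm]
  refine Finset.sum_congr rfl fun v _ => ?_
  rw [Finset.mul_sum]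
  refine Finset.sum_congr rfl fun a _ => ?_
  rw [Finset.mul_sum]

theorem pr_smul {m : ℕ} (s : K) (f G : (Fin m → I) → K) :
    pr F (fun w => s * f w) G = s * pr F f G := by
  unfold pr
  rw [Finset.mul_sum]
  refine Finset.sum_congr rfl fun w _ => ?_
  ring

theorem pr_smul' {m : ℕ} (s : K) (f G : (Fin m → I) → K) :
    pr F f (fun w => s * G w) = s * pr F f G := by
  unfold pr
  rw [Finset.mul_sum]
  refine Finset.sum_congr rfl fun w _ => ?_
  ring

/-- contraction with the diagonal in front -/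
theorem pr_om {m : ℕ} (f : (Fin (m + 2) → I) → K) (G : (Fin (m + 2) → I) → K)
    (G' : (Fin m → I) → K) (hG : ∀ a b v, G (c2 a b v) = F.ω a b * G' v) :
    pr F (fun w => cs F w * f w) G = pr F (fun v => cs F v * cf F f v) G' := by
  rw [pr_c2]
  unfold pr
  refine Finset.sum_congr rfl fun v _ => ?_
  have e : ∑ a, ∑ b, F.c a * F.c b * (cs F (c2 a b v) * f (c2 a b v)) *
      G (c2 (F.st a) (F.st b) fun i => F.st (v i)) =
      (cs F v * cf F f v) * G' fun i => F.st (v i) := by
    unfold cf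
    rw [Finset.mul_sum, Finset.sum_mul]
    refine Finset.sum_congr rfl fun a _ => ?_
    rw [Finset.sum_eq_single (F.st a)]
    · rw [hG, cs_c2, F.st_st]
      unfold OForm.ω
      rw [Matrix.of_apply, if_pos (F.st_st a).symm]
      have e1 : F.c a ≠ 0 := F.c_ne a
      have e2 : F.c (F.st a) = sg K (F.o a) * F.c a := F.c_st a
      have e3 : sg K (F.o a) * sg K (F.o a) = 1 := sg_mul_self K _
      show F.c a * F.c (F.st a) * (sg K (F.o a) * cs F v * f (c2 a (F.st a) v)) *
        ((F.c a)⁻¹ * G' fun i => F.st (v i)) = cs F v * (F.c a * f (c2 a (F.st a) v)) *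
          G' fun i => F.st (v i)
      rw [e2]
      calc F.c a * (sg K (F.o a) * F.c a) * (sg K (F.o a) * cs F v * f (c2 a (F.st a) v)) *
            ((F.c a)⁻¹ * G' fun i => F.st (v i)) =
          (sg K (F.o a) * sg K (F.o a)) * (F.c a * (F.c a)⁻¹) * (cs F v * (F.c a *
            f (c2 a (F.st a) v)) * G' fun i => F.st (v i)) := by ring
        _ = _ := by rw [e3, mul_inv_cancel₀ e1, one_mul, one_mul]
    · intro b _ hb
      rw [hG]
      unfold OForm.ω
      rw [Matrix.of_apply, if_neg, zero_mul, mul_zero]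
      intro h
      apply hb
      have h1 := congrArg F.st h
      rw [F.st_st, F.st_st] at h1
      exact h1
    · intro h
      exact absurd (Finset.mem_univ _) h
  rw [e]
  ring

omit [Fintype I] [DecidableEq I] in
theorem sw_ext (o : I → Bool) : ∀ (j m : ℕ) (t t' : List I → K),
    (∀ w : List I, w.length = m → t w = t' w) → ∀ w : List I, w.length = m →
      sw o j t w = sw o j t' w
  | 0, m, t, t', h, [], hw => h [] hw
  | 0, m, t, t', h, [a], hw => h [a] hw
  | 0, m, t, t', h, a :: b :: l, hw => by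
    show ks K (o a) (o b) * t (b :: a :: l) = ks K (o a) (o b) * t' (b :: a :: l)
    rw [h (b :: a :: l) (by simpa using hw)]
  | j + 1, m, t, t', h, [], hw => h [] hw
  | j + 1, 0, t, t', h, a :: l, hw => by simp at hw
  | j + 1, m + 1, t, t', h, a :: l, hw => by
    show sw o j (fun l' => t (a :: l')) l = sw o j (fun l' => t' (a :: l')) l
    exact sw_ext o j m _ _ (fun w hw' => h (a :: w) (by simpa using hw')) l (by simpa using hw)

omit [Fintype I] [DecidableEq I] in
theorem sw_smul' (o : I → Bool) (s : K) : ∀ (j : ℕ) (t : List I → K) (w : List I),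
    sw o j (fun w => s * t w) w = s * sw o j t w
  | 0, t, [] => rfl
  | 0, t, [a] => rfl
  | 0, t, a :: b :: l => by
    show ks K (o a) (o b) * (s * t (b :: a :: l)) = s * (ks K (o a) (o b) * t (b :: a :: l))
    ring
  | j + 1, t, [] => rfl
  | j + 1, t, a :: l => sw_smul' o s j (fun l' => t (a :: l')) l

omit [Fintype I] [DecidableEq I] in
theorem sws_alt (o : I → Bool) (b : ℕ) (t : List I → K)
    (ht : ∀ j, j + 2 ≤ b → ∀ w, w.length = b → sw o j t w = -t w) :
    ∀ js : List ℕ, (∀ j ∈ js, j + 2 ≤ b) → ∃ s : K, ∀ w : List I, w.length = b →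
      sws o js t w = s * t w
  | [], _ => ⟨1, fun w _ => (one_mul _).symm⟩
  | j :: js, h => by
    obtain ⟨s, hs⟩ := sws_alt o b t ht js fun j' hj' => h j' (List.mem_cons_of_mem _ hj')
    refine ⟨-s, fun w hw => ?_⟩
    show sw o j (sws o js t) w = _
    rw [sw_ext o j b (sws o js t) (fun w => s * t w) hs w hw, sw_smul', ht j (h j
      List.mem_cons_self) w hw]
    ring

/-- the contraction of an alternating tensor vanishes -/
theorem alt_zero [CharZero K] (b : ℕ) (t : List I → K) (hb : 2 ≤ b)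
    (ht : ∀ j, j + 2 ≤ b → ∀ w, w.length = b → sw F.o j t w = -t w) (u : List I)
    (hu : u.length + 2 = b) : ∑ a, F.c a * sg K (F.o a) * t (F.st a :: a :: u) = 0 := by
  have h1 : ∀ a : I, t (F.st a :: a :: u) = -(sg K (F.o a) * t (a :: F.st a :: u)) := by
    intro a
    have h := ht 0 hb (F.st a :: a :: u) (by simpa using hu)
    have h2 : ks K (F.o (F.st a)) (F.o a) * t (a :: F.st a :: u) = -t (F.st a :: a :: u) := h
    have h3 : ks K (F.o (F.st a)) (F.o a) = sg K (F.o a) := by
      rw [F.o_st]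
      unfold ks sg
      by_cases h4 : F.o a = true
      · rw [if_pos ⟨h4, h4⟩, if_pos h4]
      · rw [if_neg fun h5 => h4 h5.1, if_neg h4]
    rw [h3] at h2
    rw [h2, neg_neg]
  have h2 : ∑ a, F.c a * sg K (F.o a) * t (F.st a :: a :: u) =
      -∑ a, F.c a * sg K (F.o a) * t (F.st a :: a :: u) := by
    have h3 : ∑ a, F.c a * sg K (F.o a) * t (F.st a :: a :: u) =
        ∑ a, -(F.c a * t (a :: F.st a :: u)) := by
      refine Finset.sum_congr rfl fun a _ => ?_
      rw [h1 a]
      calc F.c a * sg K (F.o a) * -(sg K (F.o a) * t (a :: F.st a :: u)) =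
          (sg K (F.o a) * sg K (F.o a)) * -(F.c a * t (a :: F.st a :: u)) := by ring
        _ = _ := by rw [sg_mul_self, one_mul]
    have h4 : ∑ a, -(F.c a * t (a :: F.st a :: u)) =
        ∑ a, -(F.c (F.st a) * t (F.st a :: F.st (F.st a) :: u)) :=
      (F.sum_st fun a => -(F.c a * t (a :: F.st a :: u))).symm
    refine (h3.trans h4).trans ?_
    rw [← Finset.sum_neg_distrib]
    refine Finset.sum_congr rfl fun a _ => ?_
    rw [F.st_st, F.c_st]
    ring
  have h5 : (2 : K) * ∑ a, F.c a * sg K (F.o a) * t (F.st a :: a :: u) = 0 := by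
    rw [two_mul]
    nth_rewrite 1 [h2]
    exact neg_add_cancel _
  rcases mul_eq_zero.1 h5 with h6 | h6
  · exact absurd h6 two_ne_zero
  · exact h6

theorem pr_alt [CharZero K] (k : ℕ) (t : List I → K)
    (ht : ∀ j, j + 2 ≤ 2 * (k + 1) → ∀ w, w.length = 2 * (k + 1) → sw F.o j t w = -t w) :
    pr F (fun w => cs F w * dg F (k + 1) w) (ev (2 * (k + 1)) t) = 0 := by
  have e := pr_c2 F (m := 2 * k) (fun w => cs F w * dg F (k + 1) w) (ev (2 * (k + 1)) t)
  refine e.trans (Finset.sum_eq_zero fun v _ => ?_)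
  have e1 : ∑ a, ∑ b, F.c a * F.c b * (cs F (c2 a b v) * dg F (k + 1) (c2 a b v)) *
      ev (2 * (k + 1)) t (c2 (F.st a) (F.st b) fun i => F.st (v i)) =
      (cs F v * dg F k v) * ∑ a, F.c a * sg K (F.o a) *
        t (F.st a :: a :: List.ofFn fun i => F.st (v i)) := by
    rw [Finset.mul_sum]
    refine Finset.sum_congr rfl fun a _ => ?_
    rw [Finset.sum_eq_single (F.st a)]
    · rw [dg_c2, cs_c2, F.st_st]
      have e3 : ev (2 * (k + 1)) t (c2 (F.st a) a fun i => F.st (v i)) =
          t (F.st a :: a :: List.ofFn fun i => F.st (v i)) := by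
        show t (List.ofFn (c2 (F.st a) a fun i => F.st (v i))) = _
        rw [ofFn_c2]
      rw [e3]
      unfold OForm.ω
      rw [Matrix.of_apply, if_pos rfl]
      have e4 : F.c (F.st a) ≠ 0 := F.c_ne _
      calc F.c a * F.c (F.st a) * (sg K (F.o a) * cs F v * ((F.c (F.st a))⁻¹ * dg F k v)) *
            t (F.st a :: a :: List.ofFn fun i => F.st (v i)) =
          (F.c (F.st a) * (F.c (F.st a))⁻¹) * (cs F v * dg F k v * (F.c a * sg K (F.o a) *
            t (F.st a :: a :: List.ofFn fun i => F.st (v i)))) := by ring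
        _ = _ := by rw [mul_inv_cancel₀ e4, one_mul]
    · intro b _ hb
      rw [dg_c2]
      unfold OForm.ω
      rw [Matrix.of_apply, if_neg hb]
      ring
    · intro h
      exact absurd (Finset.mem_univ _) h
  refine (congrArg (fun z => (∏ i, F.c (v i)) * z) e1).trans ?_
  show (∏ i, F.c (v i)) * ((cs F v * dg F k v) * ∑ a, F.c a * sg K (F.o a) *
        t (F.st a :: a :: List.ofFn fun i => F.st (v i))) = 0
  rw [alt_zero F (2 * (k + 1)) t (by omega) ht _ (by simp; omega), mul_zero, mul_zero]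

theorem star [CharZero K] (hACT : T_ACT) (hPRF : T_PRF) (hCDI : T_CDI) :
    ∀ (i k b : ℕ) (t : List I → K), 2 ≤ b → 2 * i + b = 2 * k →
    (∀ j, j + 2 ≤ b → ∀ w, w.length = b → sw F.o j t w = -t w) →
    ∀ σ : Equiv.Perm (Fin (2 * k)), pr F (fun w => cs F w * ac F.o σ (dg F k) w)
      (ev (2 * k) (tp (2 * i) (omk F.ω i) t)) = 0
  | 0, 0, b, t, hb, hk, ht, σ => by omega
  | 0, k + 1, b, t, hb, hk, ht, σ => by
    have hb' : b = 2 * (k + 1) := by omega
    subst hb'
    have e0 : ev (2 * (k + 1)) (tp (2 * 0) (omk F.ω 0) t) = ev (2 * (k + 1)) t := by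
      funext w
      show (1 : K) * t (List.ofFn w) = t (List.ofFn w)
      rw [one_mul]
    rw [e0, ← ac_cs, (hPRF K I F (2 * (k + 1))).2.1]
    obtain ⟨js, hjs, hs⟩ := (hACT K I F.o (2 * (k + 1))).2.2.2 σ⁻¹
    obtain ⟨s, hs'⟩ := sws_alt F.o (2 * (k + 1)) t ht js hjs
    have e1 : ac F.o σ⁻¹ (ev (2 * (k + 1)) t) = fun w => s * ev (2 * (k + 1)) t w := by
      rw [← hs t]
      funext w
      exact hs' (List.ofFn w) List.length_ofFn
    rw [e1, pr_smul', pr_alt F k t ht, mul_zero]
  | i + 1, 0, b, t, hb, hk, ht, σ => by omega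
  | i + 1, k + 1, b, t, hb, hk, ht, σ => by
    have hG : ∀ (a b : I) (v : Fin (2 * k) → I),
        ev (2 * (k + 1)) (tp (2 * (i + 1)) (omk F.ω (i + 1)) t) (c2 a b v) =
          F.ω a b * ev (2 * k) (tp (2 * i) (omk F.ω i) t) v := by
      intro a b v
      show tp (2 * (i + 1)) (omk F.ω (i + 1)) t (List.ofFn (c2 a b v)) = _
      rw [ofFn_c2]
      show omk F.ω (i + 1) (a :: b :: (List.ofFn v).take (2 * i)) *
        t ((List.ofFn v).drop (2 * i)) = F.ω a b * (omk F.ω i ((List.ofFn v).take (2 * i)) *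
        t ((List.ofFn v).drop (2 * i)))
      rw [omk_cons]
      ring
    have e := pr_om F (m := 2 * k) (ac F.o σ (dg F (k + 1)))
      (ev (2 * (k + 1)) (tp (2 * (i + 1)) (omk F.ω (i + 1)) t))
      (ev (2 * k) (tp (2 * i) (omk F.ω i) t)) hG
    refine e.trans ?_
    obtain ⟨π, e2, h2⟩ := hCDI k σ
    have e3 : (fun v : Fin (2 * k) → I => cs F v * cf F (ac F.o σ (dg F (k + 1))) v) =
        fun v => F.sd ^ e2 * (cs F v * ac F.o π (dg F k) v) := by
      funext v
      rw [h2 K I F v]
      ring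
    rw [e3, pr_smul, star hACT hPRF hCDI i k b t hb (by omega) ht π, mul_zero]

theorem pf_ALT (hACT : T_ACT) (hPRF : T_PRF) (hEVC : T_EVC) (hCDI : T_CDI) : T_ALT := by
  intro K _ _ I _ _ F k i b t hb hk ht σ τ
  have h1 := (hPRF K I F (2 * k)).2.2.1 τ (ev (2 * k) (tp (2 * i) (omk F.ω i) t))
  rw [h1]
  have h2 := (hPRF K I F (2 * k)).2.1 (Fin.revPerm * τ * Fin.revPerm)⁻¹ (ac F.o σ (dg F k))
    (rvf (ev (2 * k) (tp (2 * i) (omk F.ω i) t)))
  rw [inv_inv] at h2
  rw [← h2, ← (hACT K I F.o (2 * k)).1]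
  have h3 := (hEVC K I F).2.2.1 (2 * k)
    (rvf (ac F.o ((Fin.revPerm * τ * Fin.revPerm)⁻¹ * σ) (dg F k)))
    (ev (2 * k) (tp (2 * i) (omk F.ω i) t))
  have h4 : ∀ f : (Fin (2 * k) → I) → K, rvf (rvf f) = f := by
    intro f
    funext w
    show f (fun i => w i.rev.rev) = f w
    simp only [Fin.rev_rev]
  rw [h4] at h3
  rw [h3, (hPRF K I F (2 * k)).2.2.1]
  have h5 : rvf (dg F k) = fun w => cs F w * dg F k w := by
    funext w
    exact rvf_dg F hPRF k w
  rw [h5, ac_cs]
  exact star F hACT hPRF hCDI i k b t hb hk ht _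

end words

end Pool.Agent.H21.STM
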